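import Pool.Agent.Helper57.BI.Defs

/-! BI-19: a Bishop operator with dense range comes from an invertible map. -/

open MeasureTheory Complex Filter Topology
open scoped ENNReal

namespace Pool.Agent.Helper57.BI

/-- A measure preserving map with an a.e. left inverse is a.e. equal to a bimeasurable
permutation. -/
theorem exists_perm_of_leftInv {X : Type*} [MeasurableSpace X] [MeasurableEq X]
    (μ : Measure X) (T S : X → X)
    (hT : MeasurePreserving T μ μ) (hS : Measurable S) (hST : ∀ᵐ x ∂μ, S (T x) = x) :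
    ∃ T' : Equiv.Perm X, MeasurePreserving T' μ μ ∧ MeasurePreserving T'.symm μ μ ∧
      (T' : X → X) =ᵐ[μ] T := by
  classical
  have hTm : Measurable T := hT.measurable
  have hSmap : μ.map S = μ := by
    have h1 : (S ∘ T) =ᵐ[μ] id := hST
    calc μ.map S = (μ.map T).map S := by rw [hT.map_eq]
      _ = μ.map (S ∘ T) := Measure.map_map hS hTm
      _ = μ.map id := Measure.map_congr h1
      _ = μ := Measure.map_id
  have hSp : MeasurePreserving S μ μ := ⟨hS, hSmap⟩
  have hTS : ∀ᵐ y ∂μ, T (S y) = y := by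
    have hD : MeasurableSet {y : X | T (S y) = y} := measurableSet_eq_fun (hTm.comp hS) measurable_id
    have h2 : ∀ᵐ x ∂μ, T x ∈ {y : X | T (S y) = y} := by
      filter_upwards [hST] with x hx
      simp [hx]
    have h3 := hT.measure_preimage hD.compl.nullMeasurableSet
    have h4 : μ (T ⁻¹' {y : X | T (S y) = y}ᶜ) = 0 := h2
    rw [h4] at h3
    exact h3.symm
  -- the good set
  let G : ℕ → Set X := fun n => Nat.rec {x | S (T x) = x ∧ T (S x) = x}
    (fun _ Y => Y ∩ T ⁻¹' Y ∩ S ⁻¹' Y) n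
  have hG0 : G 0 = {x | S (T x) = x ∧ T (S x) = x} := rfl
  have hGs : ∀ n, G (n + 1) = G n ∩ T ⁻¹' (G n) ∩ S ⁻¹' (G n) := fun n => rfl
  have hGm : ∀ n, MeasurableSet (G n) := by
    intro n
    induction n with
    | zero =>
      rw [hG0]
      exact (measurableSet_eq_fun (hS.comp hTm) measurable_id).inter
        (measurableSet_eq_fun (hTm.comp hS) measurable_id)
    | succ n ih =>
      rw [hGs]
      exact (ih.inter (hTm ih)).inter (hS ih)
  have hGae : ∀ n, ∀ᵐ x ∂μ, x ∈ G n := by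
    intro n
    induction n with
    | zero =>
      rw [hG0]
      filter_upwards [hST, hTS] with x h1 h2 using ⟨h1, h2⟩
    | succ n ih =>
      rw [hGs]
      filter_upwards [ih, hT.quasiMeasurePreserving.ae ih, hSp.quasiMeasurePreserving.ae ih]
        with x h1 h2 h3 using ⟨⟨h1, h2⟩, h3⟩
  let X0 : Set X := ⋂ n, G n
  have hX0m : MeasurableSet X0 := MeasurableSet.iInter hGm
  have hX0ae : ∀ᵐ x ∂μ, x ∈ X0 := by
    have := ae_all_iff.2 hGae
    filter_upwards [this] with x hx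
    exact Set.mem_iInter.2 hx
  have hX0T : ∀ x ∈ X0, T x ∈ X0 := by
    intro x hx
    refine Set.mem_iInter.2 fun n => ?_
    have := Set.mem_iInter.1 hx (n + 1)
    rw [hGs] at this
    exact this.1.2
  have hX0S : ∀ x ∈ X0, S x ∈ X0 := by
    intro x hx
    refine Set.mem_iInter.2 fun n => ?_
    have := Set.mem_iInter.1 hx (n + 1)
    rw [hGs] at this
    exact this.2
  have hX01 : ∀ x ∈ X0, S (T x) = x ∧ T (S x) = x := by
    intro x hx
    have := Set.mem_iInter.1 hx 0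
    rw [hG0] at this
    exact this
  let T' : Equiv.Perm X :=
    { toFun := fun x => if x ∈ X0 then T x else x
      invFun := fun x => if x ∈ X0 then S x else x
      left_inv := by
        intro x
        by_cases hx : x ∈ X0
        · simp only [hx, if_true, hX0T x hx]
          exact (hX01 x hx).1
        · simp only [hx, if_false]
      right_inv := by
        intro x
        by_cases hx : x ∈ X0
        · simp only [hx, if_true, hX0S x hx]
          exact (hX01 x hx).2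
        · simp only [hx, if_false] }
  have hT'm : Measurable (T' : X → X) := Measurable.ite hX0m hTm measurable_id
  have hT'sm : Measurable (T'.symm : X → X) := Measurable.ite hX0m hS measurable_id
  have hT'T : (T' : X → X) =ᵐ[μ] T := by
    filter_upwards [hX0ae] with x hx
    show (if x ∈ X0 then T x else x) = T x
    rw [if_pos hx]
  have hT'S : (T'.symm : X → X) =ᵐ[μ] S := by
    filter_upwards [hX0ae] with x hx
    show (if x ∈ X0 then S x else x) = S x
    rw [if_pos hx]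
  refine ⟨T', ⟨hT'm, ?_⟩, ⟨hT'sm, ?_⟩, hT'T⟩
  · rw [Measure.map_congr hT'T, hT.map_eq]
  · rw [Measure.map_congr hT'S, hSmap]

theorem invertible_aux (μ : Measure ℝ) (hμ : μ = volume.restrict (Set.Ioo (0 : ℝ) 1))
    (T : ℝ → ℝ) (hT : MeasurePreserving T μ μ)
    (A : Lp ℂ (2 : ENNReal) μ → Lp ℂ (2 : ENNReal) μ)
    (hA : ∀ f : Lp ℂ (2 : ENNReal) μ,
      (A f : ℝ → ℂ) =ᵐ[μ] fun x => (x : ℂ) * (f : ℝ → ℂ) (T x))
    (hd : DenseRange A) :
    ∃ T' : Equiv.Perm ℝ, MeasurePreserving T' μ μ ∧ MeasurePreserving T'.symm μ μ ∧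
      (T' : ℝ → ℝ) =ᵐ[μ] T := by
  have hfin : IsFiniteMeasure μ := by
    rw [hμ]; infer_instance
  -- the function x ^ 2
  have hmem : MemLp (fun x : ℝ => (x : ℂ) ^ 2) 2 μ := by
    refine MemLp.of_bound (by fun_prop) 1 ?_
    rw [hμ]
    refine (ae_restrict_iff' measurableSet_Ioo).2 (Filter.Eventually.of_forall fun x hx => ?_)
    rw [norm_pow, Complex.norm_real, Real.norm_eq_abs, abs_of_pos hx.1]
    exact pow_le_one₀ hx.1.le hx.2.le
  let h : Lp ℂ (2 : ENNReal) μ := hmem.toLp _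
  obtain ⟨u, hu, hlim⟩ := mem_closure_iff_seq_limit.1 (hd h)
  choose f hf using hu
  have hlim' : Tendsto (fun n => A (f n)) atTop (𝓝 h) := by
    have : (fun n => A (f n)) = u := funext hf
    rw [this]; exact hlim
  have hmeas : TendstoInMeasure μ (fun n => ((A (f n) : Lp ℂ (2 : ENNReal) μ) : ℝ → ℂ)) atTop h :=
    tendstoInMeasure_of_tendsto_Lp hlim'
  obtain ⟨ns, hns, hae⟩ := hmeas.exists_seq_tendsto_ae
  let F : ℕ → ℝ → ℝ := fun i y => ((f (ns i) : ℝ → ℂ) y).re
  have hFm : ∀ i, Measurable (F i) := fun i =>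
    Complex.measurable_re.comp (Lp.stronglyMeasurable (f (ns i))).measurable
  let S : ℝ → ℝ := fun y => limsup (fun i => F i y) atTop
  have hSm : Measurable S := Measurable.limsup hFm
  refine exists_perm_of_leftInv μ T S hT hSm ?_
  have hpos : ∀ᵐ x ∂μ, x ∈ Set.Ioo (0 : ℝ) 1 := by
    rw [hμ]
    exact ae_restrict_mem measurableSet_Ioo
  have hAall : ∀ᵐ x ∂μ, ∀ i, ((A (f (ns i)) : Lp ℂ (2 : ENNReal) μ) : ℝ → ℂ) x
      = (x : ℂ) * (f (ns i) : ℝ → ℂ) (T x) := ae_all_iff.2 fun i => hA (f (ns i))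
  filter_upwards [hae, hpos, hAall, hmem.coeFn_toLp] with x h1 h2 h3 h4
  have hx0 : (x : ℂ) ≠ 0 := by exact_mod_cast h2.1.ne'
  have h5 : Tendsto (fun i => (x : ℂ) * (f (ns i) : ℝ → ℂ) (T x)) atTop (𝓝 ((x : ℂ) ^ 2)) := by
    have : ((h : Lp ℂ (2 : ENNReal) μ) : ℝ → ℂ) x = (x : ℂ) ^ 2 := h4
    rw [this] at h1
    refine h1.congr fun i => h3 i
  have h6 : Tendsto (fun i => (f (ns i) : ℝ → ℂ) (T x)) atTop (𝓝 (x : ℂ)) := by
    have h7 := h5.const_mul ((x : ℂ)⁻¹)
    have h8 : (x : ℂ)⁻¹ * (x : ℂ) ^ 2 = (x : ℂ) := by field_simp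
    rw [h8] at h7
    refine h7.congr fun i => ?_
    rw [← mul_assoc, inv_mul_cancel₀ hx0, one_mul]
  have h9 : Tendsto (fun i => F i (T x)) atTop (𝓝 x) := by
    have := (Complex.continuous_re.tendsto (x : ℂ)).comp h6
    simpa [F, Function.comp_def] using this
  exact h9.limsup_eq


/-- BI-19 -/
theorem invertible (T : ℝ → ℝ) (hT : Ergodic T (volume.restrict (Set.Ioo (0 : ℝ) 1)))
    (A : Lp ℂ (2 : ENNReal) (volume.restrict (Set.Ioo (0 : ℝ) 1)) →L[ℂ]
        Lp ℂ (2 : ENNReal) (volume.restrict (Set.Ioo (0 : ℝ) 1)))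
    (hA : ∀ f : Lp ℂ (2 : ENNReal) (volume.restrict (Set.Ioo (0 : ℝ) 1)),
      (A f : ℝ → ℂ) =ᵐ[volume.restrict (Set.Ioo (0 : ℝ) 1)] fun x => (x : ℂ) * (f : ℝ → ℂ) (T x))
    (hd : DenseRange A) :
    ∃ T' : Equiv.Perm ℝ, MeasurePreserving T' (volume.restrict (Set.Ioo (0 : ℝ) 1))
        (volume.restrict (Set.Ioo (0 : ℝ) 1)) ∧
      MeasurePreserving T'.symm (volume.restrict (Set.Ioo (0 : ℝ) 1))
        (volume.restrict (Set.Ioo (0 : ℝ) 1)) ∧
      (T' : ℝ → ℝ) =ᵐ[volume.restrict (Set.Ioo (0 : ℝ) 1)] T := by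
  refine invertible_aux (volume.restrict (Set.Ioo (0 : ℝ) 1)) rfl T hT.toMeasurePreserving
    (fun f => A f) hA ?_
  exact hd

end Pool.Agent.Helper57.BI
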